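import Pool.Agent.H88.Flat.Width

/-! Decay of the tube functional of a geodesic flow modulo a deck group. -/

namespace NearFlat

open Set MeasureTheory Topology Filter
open scoped ENNReal

/-- the σ-algebra of the measurable sets invariant under all maps of `Dk` -/
abbrev invSigma {T : Type*} (Dk : Set (T → T)) (m : MeasurableSpace T) : MeasurableSpace T where
  MeasurableSet' s := MeasurableSet s ∧ ∀ τ ∈ Dk, τ ⁻¹' s = s
  measurableSet_empty := ⟨MeasurableSet.empty, fun _ _ => rfl⟩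
  measurableSet_compl s h := ⟨h.1.compl, fun τ hτ => by rw [preimage_compl, h.2 τ hτ]⟩
  measurableSet_iUnion f h := ⟨.iUnion fun i => (h i).1, fun τ hτ => by
    rw [preimage_iUnion]; exact iUnion_congr fun i => (h i).2 τ hτ⟩

theorem invSigma_le {T : Type*} (Dk : Set (T → T)) (m : MeasurableSpace T) : invSigma Dk m ≤ m :=
  fun _ hs => hs.1

theorem measurable_invSigma {T β : Type*} {Dk : Set (T → T)} [m : MeasurableSpace T]
    [MeasurableSpace β] {f : T → β} (hf : Measurable f) (hi : ∀ τ ∈ Dk, ∀ v, f (τ v) = f v) :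
    Measurable[invSigma Dk m] f := by
  intro s hs
  refine ⟨hf hs, fun τ hτ => ?_⟩
  ext v
  simp [hi τ hτ v]

/-- a map commuting with the deck maps that preserves integrals of invariant functions
preserves the trimmed measure -/
theorem measurePreserving_trim {T : Type*} {Dk : Set (T → T)} [m : MeasurableSpace T]
    {ν : Measure T} {f : T → T} (hf : Measurable f) (hcomm : ∀ τ ∈ Dk, ∀ v, f (τ v) = τ (f v))
    (hinv : ∀ F : T → ℝ≥0∞, Measurable F → (∀ τ ∈ Dk, ∀ v, F (τ v) = F v) →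
      ∫⁻ v, F (f v) ∂ν = ∫⁻ v, F v ∂ν) :
    @MeasurePreserving T T (invSigma Dk m) (invSigma Dk m) f (ν.trim (invSigma_le Dk m))
      (ν.trim (invSigma_le Dk m)) := by
  have hfm : @Measurable T T (invSigma Dk m) (invSigma Dk m) f := by
    intro s hs
    refine ⟨hf hs.1, fun τ hτ => ?_⟩
    ext v
    simp only [mem_preimage, hcomm τ hτ v]
    have := hs.2 τ hτ
    constructor
    · intro h; rw [← this]; exact h
    · intro h
      have h' : f v ∈ τ ⁻¹' s := by rw [this]; exact h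
      exact h'
  refine @MeasurePreserving.mk T T (invSigma Dk m) (invSigma Dk m) f _ _ hfm ?_
  refine @Measure.ext T (invSigma Dk m) _ _ fun s hs => ?_
  rw [@Measure.map_apply T T (invSigma Dk m) (invSigma Dk m) _ f hfm s hs,
    trim_measurableSet_eq _ (hfm hs), trim_measurableSet_eq _ hs]
  have h1 := hinv (s.indicator 1) (measurable_one.indicator hs.1) (by
    intro τ hτ v
    have h2 : τ v ∈ s ↔ v ∈ s := by
      have := hs.2 τ hτ
      constructor
      · intro h; rw [← this]; exact h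
      · intro h
        have h' : v ∈ τ ⁻¹' s := by rw [this]; exact h
        exact h'
    by_cases hv : v ∈ s
    · rw [indicator_of_mem hv, indicator_of_mem (h2.2 hv)]; rfl
    · rw [indicator_of_notMem hv, indicator_of_notMem (fun h => hv (h2.1 h))])
  have e1 : ∀ v, s.indicator (1 : T → ℝ≥0∞) (f v) = (f ⁻¹' s).indicator 1 v := fun v => rfl
  simp only [e1] at h1
  rw [lintegral_indicator_one (hf hs.1), lintegral_indicator_one hs.1] at h1
  exact h1

variable {T : Type*} {Φ rot : ℝ → T → T} {K : T → ℝ} {G G1 : T → ℝ → ℝ → ℝ}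

/-- **One decay step**, at any real scale. -/
theorem width_step [TopologicalSpace T] [m : MeasurableSpace T] [BorelSpace T]
    (h : PreGeo Φ rot K G G1)
    (hc : Continuous fun p : T × ℝ × ℝ => K (psi Φ rot p.1 p.2.1 p.2.2 0))
    (Dk : Set (T → T)) (ν : Measure T) [IsFiniteMeasure ν]
    (dΦ : ∀ τ ∈ Dk, ∀ t v, Φ t (τ v) = τ (Φ t v))
    (drot : ∀ τ ∈ Dk, ∀ a v, rot a (τ v) = τ (rot a v))
    (dK : ∀ τ ∈ Dk, ∀ v, K (τ v) = K v)
    (mΦ : ∀ t, Measurable (Φ t)) (mrot : ∀ a, Measurable (rot a))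
    (iΦ : ∀ t (F : T → ℝ≥0∞), Measurable F → (∀ τ ∈ Dk, ∀ v, F (τ v) = F v) →
      ∫⁻ v, F (Φ t v) ∂ν = ∫⁻ v, F v ∂ν)
    (irot : ∀ a (F : T → ℝ≥0∞), Measurable F → (∀ τ ∈ Dk, ∀ v, F (τ v) = F v) →
      ∫⁻ v, F (rot a v) ∂ν = ∫⁻ v, F v ∂ν)
    {D c : ℝ} (hD : 0 < D) (hcp : 0 < c)
    (hole : ∀ u, ∃ t y, |t| ≤ D ∧ |y| ≤ D ∧ c ≤ -K (psi Φ rot u t y 0))
    {k : ℝ} (hk100 : 100 ≤ k) (hkD : D ≤ k) (hkc : c⁻¹ ≤ k) :
    ∫⁻ u, width Φ rot K (10000 * k) u ^ 20 ∂ν ≤
      ENNReal.ofReal (99 / 100) * ∫⁻ u, width Φ rot K k u ^ 20 ∂ν := by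
  have hle := invSigma_le Dk m
  have hpΦ : ∀ t, @MeasurePreserving T T (invSigma Dk m) (invSigma Dk m) (Φ t)
      (ν.trim hle) (ν.trim hle) := fun t =>
    measurePreserving_trim (mΦ t) (fun τ hτ v => dΦ τ hτ t v) (iΦ t)
  have hpr : ∀ a, @MeasurePreserving T T (invSigma Dk m) (invSigma Dk m) (rot a)
      (ν.trim hle) (ν.trim hle) := fun a =>
    measurePreserving_trim (mrot a) (fun τ hτ v => drot τ hτ a v) (irot a)
  have hsh : ∀ y, @MeasurePreserving T T (invSigma Dk m) (invSigma Dk m) (shift Φ rot y)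
      (ν.trim hle) (ν.trim hle) := fun y =>
    @MeasurePreserving.comp T T T (invSigma Dk m) (invSigma Dk m) (invSigma Dk m)
      _ _ _ _ _ (hpr _) (@MeasurePreserving.comp T T T (invSigma Dk m) (invSigma Dk m)
        (invSigma Dk m) _ _ _ _ _ (hpΦ y) (hpr _))
  have hmw : ∀ x : ℝ, Measurable[invSigma Dk m] (width Φ rot K x) := fun x =>
    measurable_invSigma (width_measurable hc x)
      (fun τ hτ v => width_deck (dΦ τ hτ) (drot τ hτ) (dK τ hτ) x v)
  have hfin : @IsFiniteMeasure T (invSigma Dk m) (ν.trim hle) := isFiniteMeasure_trim hle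
  have hcomp : ∀ y, @MeasurePreserving T T (invSigma Dk m) (invSigma Dk m)
      (fun u => shift Φ rot y (Φ (100 * k) u)) (ν.trim hle) (ν.trim hle) := fun y =>
    @MeasurePreserving.comp T T T (invSigma Dk m) (invSigma Dk m) (invSigma Dk m)
      _ _ _ (shift Φ rot y) (Φ (100 * k)) (hsh y) (hpΦ _)
  have hω : ∀ j, 0 < FlatDecay.om D j := FlatDecay.om_pos hD
  have hωD : ∀ j, FlatDecay.om D j ≤ D := FlatDecay.om_le hD
  have key := @FlatDecay.step T (invSigma Dk m) (ν.trim hle) D hD hfin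
    (width Φ rot K k) (width Φ rot K (2 * k)) (width Φ rot K (10000 * k)) (Φ (100 * k))
    (fun j => rot (8 / 10 * FlatDecay.om D j / (100 * k)))
    (fun j => shift Φ rot (4 / 10 * FlatDecay.om D j))
    (@FlatDecay.Step.mk T (invSigma Dk m) (ν.trim hle) D _ _ _ _ _ _ (hmw _) (hmw _) (hmw _)
      (width_anti (by linarith) (by linarith))
      (width_anti (by linarith) (by linarith))
      (fun u => width_le_of_hole hcp hkD (by linarith) hkc (hole u))
      (fun _ => hpr _)
      (fun j => hcomp _)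
      (fun j u hu => (le_width_iff (by have := hω j; positivity)).2
        (h.RC hk100 (hω j) ((hωD j).trans hkD) ((le_width_iff (hω j)).1 hu)))
      (fun j u hu hu' => (le_width_iff (by have := hω j; positivity)).2
        (h.GC hk100 (hω j) ((hωD j).trans hkD)
          ((le_width_iff (by have := hω j; positivity)).1 hu)
          ((le_width_iff (by have := hω j; positivity)).1 hu'))))
  rwa [lintegral_trim hle ((hmw _).pow_const _), lintegral_trim hle ((hmw _).pow_const _)] at key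

/-- **Decay of the tube functional.** -/
theorem width_decay [TopologicalSpace T] [m : MeasurableSpace T] [BorelSpace T]
    (h : PreGeo Φ rot K G G1)
    (hc : Continuous fun p : T × ℝ × ℝ => K (psi Φ rot p.1 p.2.1 p.2.2 0))
    (Dk : Set (T → T)) (ν : Measure T) [IsFiniteMeasure ν]
    (dΦ : ∀ τ ∈ Dk, ∀ t v, Φ t (τ v) = τ (Φ t v))
    (drot : ∀ τ ∈ Dk, ∀ a v, rot a (τ v) = τ (rot a v))
    (dK : ∀ τ ∈ Dk, ∀ v, K (τ v) = K v)
    (mΦ : ∀ t, Measurable (Φ t)) (mrot : ∀ a, Measurable (rot a))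
    (iΦ : ∀ t (F : T → ℝ≥0∞), Measurable F → (∀ τ ∈ Dk, ∀ v, F (τ v) = F v) →
      ∫⁻ v, F (Φ t v) ∂ν = ∫⁻ v, F v ∂ν)
    (irot : ∀ a (F : T → ℝ≥0∞), Measurable F → (∀ τ ∈ Dk, ∀ v, F (τ v) = F v) →
      ∫⁻ v, F (rot a v) ∂ν = ∫⁻ v, F v ∂ν)
    {D c : ℝ} (hD : 0 < D) (hcp : 0 < c)
    (hole : ∀ u, ∃ t y, |t| ≤ D ∧ |y| ≤ D ∧ c ≤ -K (psi Φ rot u t y 0)) :
    ∃ C η n₀ : ℝ, 0 < η ∧ 0 ≤ C ∧ ∀ n : ℕ, n₀ ≤ n →
      ∫⁻ u, width Φ rot K n u ^ 20 ∂ν ≤ ENNReal.ofReal (C * (n : ℝ) ^ (-η)) := by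
  have hle := invSigma_le Dk m
  obtain ⟨m₀, hm₀⟩ := exists_nat_ge (max 100 (max D c⁻¹))
  have hm100 : (100 : ℝ) ≤ m₀ := (le_max_left _ _).trans hm₀
  have hmD : D ≤ m₀ := ((le_max_left _ _).trans (le_max_right _ _)).trans hm₀
  have hmc : c⁻¹ ≤ m₀ := ((le_max_right _ _).trans (le_max_right _ _)).trans hm₀
  have hpΦ : ∀ t, @MeasurePreserving T T (invSigma Dk m) (invSigma Dk m) (Φ t)
      (ν.trim hle) (ν.trim hle) := fun t =>
    measurePreserving_trim (mΦ t) (fun τ hτ v => dΦ τ hτ t v) (iΦ t)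
  have hpr : ∀ a, @MeasurePreserving T T (invSigma Dk m) (invSigma Dk m) (rot a)
      (ν.trim hle) (ν.trim hle) := fun a =>
    measurePreserving_trim (mrot a) (fun τ hτ v => drot τ hτ a v) (irot a)
  have hmw : ∀ x : ℝ, Measurable[invSigma Dk m] (width Φ rot K x) := fun x =>
    measurable_invSigma (width_measurable hc x)
      (fun τ hτ v => width_deck (dΦ τ hτ) (drot τ hτ) (dK τ hτ) x v)
  have hfin : @IsFiniteMeasure T (invSigma Dk m) (ν.trim hle) := isFiniteMeasure_trim hle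
  have key := @FlatDecay.decay T (invSigma Dk m) (ν.trim hle) D hD hfin
    (fun n u => width Φ rot K (max (n : ℝ) 1) u) m₀ (fun n => hmw _)
    (fun k l hkl u => width_anti (by positivity) (max_le_max_right 1 (by exact_mod_cast hkl)) u)
    (fun n hn u => by
      have hn' : (m₀ : ℝ) ≤ n := by exact_mod_cast hn
      have e : max (n : ℝ) 1 = n := max_eq_left (by linarith)
      simp only [e]
      exact width_le_of_hole hcp (by linarith) (by linarith) (by linarith) (hole u))
    (fun n => Φ n) rot (fun y => shift Φ rot y)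
    (fun n => hpΦ _) hpr
    (fun y => @MeasurePreserving.comp T T T (invSigma Dk m) (invSigma Dk m) (invSigma Dk m)
      _ _ _ _ _ (hpr _) (@MeasurePreserving.comp T T T (invSigma Dk m) (invSigma Dk m)
        (invSigma Dk m) _ _ _ _ _ (hpΦ y) (hpr _)))
    (fun k hk ω hω hωD u hu => by
      have hk' : (m₀ : ℝ) ≤ k := by exact_mod_cast hk
      have e1 : max ((2 * k : ℕ) : ℝ) 1 = 2 * k := by
        push_cast; exact max_eq_left (by linarith)
      have e2 : max (k : ℝ) 1 = k := max_eq_left (by linarith)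
      simp only [e1, e2] at hu ⊢
      exact (le_width_iff (by positivity)).2
        (h.RC (by linarith) hω (by linarith) ((le_width_iff hω).1 hu)))
    (fun k hk ω hω hωD u hu hu' => by
      have hk' : (m₀ : ℝ) ≤ k := by exact_mod_cast hk
      have e1 : max ((10000 * k : ℕ) : ℝ) 1 = 10000 * k := by
        push_cast; exact max_eq_left (by linarith)
      have e2 : max (k : ℝ) 1 = k := max_eq_left (by linarith)
      have e3 : ((100 * k : ℕ) : ℝ) = 100 * k := by push_cast; ring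
      simp only [e1, e2, e3] at hu hu' ⊢
      exact (le_width_iff (by positivity)).2
        (h.GC (by linarith) hω (by linarith) ((le_width_iff (by positivity)).1 hu)
          ((le_width_iff (by positivity)).1 hu')))
  obtain ⟨C, η, hη, hC, hdec⟩ := key
  refine ⟨C, η, m₀, hη, hC, fun n hn => ?_⟩
  have hn1 : 1 ≤ n := by
    have : (1 : ℝ) ≤ n := by linarith
    exact_mod_cast this
  have h1 := hdec n hn1 (by exact_mod_cast hn)
  have e2 : max (n : ℝ) 1 = n := max_eq_left (by linarith)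
  simp only [e2] at h1
  rwa [lintegral_trim hle ((hmw _).pow_const _)] at h1

end NearFlat
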