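import Pool.Agent.H65.Flat.Def
import Pool.Agent.H65.Flat.Srf

/-! # Bridge between the geodesic equation and the phase space flow -/

namespace H65.Flat

open Set
open scoped UpperHalfPlane MatrixGroups InnerProductSpace Topology

namespace Surface

variable (S : Surface)

/-- coordinates `(x, s)` of a point of the upper half plane -/
noncomputable def cc (z : ℂ) : ℝ × ℝ := (z.re, Real.log z.im)

theorem ofComplex_eq {z : ℂ} (hz : 0 < z.im) : UpperHalfPlane.ofComplex z = zz (cc z) := by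
  rw [UpperHalfPlane.ofComplex_apply_of_im_pos hz]
  apply UpperHalfPlane.ext
  apply Complex.ext
  · rfl
  · simp [zz, cc, Real.exp_log hz]

theorem σ_eq {z : ℂ} (hz : 0 < z.im) : S.σ z = S.u (zz (cc z)) - Real.log z.im := by
  unfold σ
  rw [ofComplex_eq hz]

theorem cc_zz (p : ℝ × ℝ) : cc ((zz p : ℍ) : ℂ) = p := by
  unfold cc zz
  apply Prod.ext
  · rfl
  · exact Real.log_exp _

theorem zz_im (p : ℝ × ℝ) : ((zz p : ℍ) : ℂ).im = Real.exp p.2 := rfl

theorem hasFDerivAt_cc {z : ℂ} (hz : 0 < z.im) :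
    HasFDerivAt cc (Complex.reCLM.prod ((z.im)⁻¹ • Complex.imCLM)) z := by
  have h1 : HasFDerivAt (fun z : ℂ => z.re) Complex.reCLM z := Complex.reCLM.hasFDerivAt
  have h2 : HasFDerivAt (fun z : ℂ => z.im) Complex.imCLM z := Complex.imCLM.hasFDerivAt
  exact h1.prodMk (h2.log hz.ne')

theorem fderiv_pair {U : ℝ × ℝ → ℝ} (p : ℝ × ℝ) (a b : ℝ) :
    fderiv ℝ U p (a, b) = Ux U p * a + Us U p * b := by
  have e : ((a, b) : ℝ × ℝ) = a • ((1, 0) : ℝ × ℝ) + b • ((0, 1) : ℝ × ℝ) := by simp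
  rw [e, map_add, map_smul, map_smul]
  unfold Ux Us
  simp only [smul_eq_mul]
  ring

theorem hasFDerivAt_σ (hU : Differentiable ℝ fun p => S.u (zz p)) {z : ℂ} (hz : 0 < z.im) :
    HasFDerivAt S.σ ((fderiv ℝ (fun p => S.u (zz p)) (cc z)).comp
      (Complex.reCLM.prod ((z.im)⁻¹ • Complex.imCLM)) - (z.im)⁻¹ • Complex.imCLM) z := by
  have h2 : HasFDerivAt (fun z : ℂ => z.im) Complex.imCLM z := Complex.imCLM.hasFDerivAt
  have h3 : HasFDerivAt (fun z : ℂ => S.u (zz (cc z)) - Real.log z.im)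
      ((fderiv ℝ (fun p => S.u (zz p)) (cc z)).comp
        (Complex.reCLM.prod ((z.im)⁻¹ • Complex.imCLM)) - (z.im)⁻¹ • Complex.imCLM) z :=
    ((hU (cc z)).hasFDerivAt.comp z (hasFDerivAt_cc hz)).sub (h2.log hz.ne')
  refine h3.congr_of_eventuallyEq ?_
  have ho : IsOpen {z : ℂ | 0 < z.im} := isOpen_lt continuous_const Complex.continuous_im
  filter_upwards [ho.mem_nhds hz] with w hw
  exact S.σ_eq hw

theorem fderiv_σ (hU : Differentiable ℝ fun p => S.u (zz p)) {z : ℂ} (hz : 0 < z.im) (w : ℂ) :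
    fderiv ℝ S.σ z w = Ux (fun p => S.u (zz p)) (cc z) * w.re +
      (Us (fun p => S.u (zz p)) (cc z) - 1) * (w.im / z.im) := by
  rw [(S.hasFDerivAt_σ hU hz).fderiv]
  have e : ((fderiv ℝ (fun p => S.u (zz p)) (cc z)).comp
      (Complex.reCLM.prod ((z.im)⁻¹ • Complex.imCLM)) - (z.im)⁻¹ • Complex.imCLM) w =
      fderiv ℝ (fun p => S.u (zz p)) (cc z) (w.re, (z.im)⁻¹ * w.im) - (z.im)⁻¹ * w.im := rfl
  rw [e, fderiv_pair]
  field_simp
  ring

/-- direction of the unit vector `v` as a complex number -/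
noncomputable def dir (v : T) : ℂ :=
  ((Real.exp (-S.σ (base v)) : ℝ) : ℂ) * Complex.exp ((v.2.2 : ℂ) * Complex.I)

theorem base_eq (v : T) : base v = zz (bp v) := rfl

theorem σ_base (v : T) : S.σ (base v) = S.u (zz (bp v)) - v.2.1 := by
  have h : 0 < ((base v : ℍ) : ℂ).im := UpperHalfPlane.im_pos _
  rw [S.σ_eq h, base_eq, cc_zz, zz_im, Real.log_exp]
  rfl

theorem dir_eq (v : T) : S.dir v =
    ((Real.exp (v.2.1 - S.u (zz (bp v))) : ℝ) : ℂ) * Complex.exp ((v.2.2 : ℂ) * Complex.I) := by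
  unfold dir
  rw [S.σ_base]
  congr 3
  ring

theorem dir_re (v : T) : (S.dir v).re = Real.exp (v.2.1 - S.u (zz (bp v))) * Real.cos v.2.2 := by
  rw [dir_eq, Complex.re_ofReal_mul, Complex.exp_ofReal_mul_I_re]

theorem dir_im (v : T) : (S.dir v).im = Real.exp (v.2.1 - S.u (zz (bp v))) * Real.sin v.2.2 := by
  rw [dir_eq, Complex.im_ofReal_mul, Complex.exp_ofReal_mul_I_im]

theorem norm_dir (v : T) : ‖S.dir v‖ = Real.exp (v.2.1 - S.u (zz (bp v))) := by
  rw [dir_eq, norm_mul, Complex.norm_exp_ofReal_mul_I, mul_one, Complex.norm_real,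
    Real.norm_eq_abs, abs_of_pos (Real.exp_pos _)]

/-- (b1) derivative of the base point of the flow -/
theorem hasDerivAt_base (P : Pre) (hP : P.U = fun p => S.u (zz p)) (v : T) (s : ℝ) :
    HasDerivAt (fun s => ((base (P.Φ s v) : ℍ) : ℂ)) (S.dir (P.Φ s v)) s := by
  have h := P.Φ_deriv v s
  rw [hP] at h
  have h1 : HasDerivAt (fun s => (P.Φ s v).1) _ s := h.fst
  have h2 : HasDerivAt (fun s => (P.Φ s v).2.1) _ s := h.snd.fst
  have h3 := h2.exp
  have h4 := h1.ofReal_comp.add (h3.ofReal_comp.mul_const Complex.I)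
  have e : (fun s => ((base (P.Φ s v) : ℍ) : ℂ)) =
      fun s => (((P.Φ s v).1 : ℝ) : ℂ) + ((Real.exp (P.Φ s v).2.1 : ℝ) : ℂ) * Complex.I := by
    ext s
    exact Complex.mk_eq_add_mul_I _ _
  rw [e]
  refine h4.congr_deriv ?_
  have ea : (S.dir (P.Φ s v)) = (((S.dir (P.Φ s v)).re : ℝ) : ℂ) +
      (((S.dir (P.Φ s v)).im : ℝ) : ℂ) * Complex.I := (Complex.re_add_im _).symm
  rw [ea, dir_re, dir_im]
  unfold fieldX
  congr 3
  simp only
  rw [← mul_assoc, ← Real.exp_add]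
  congr 2

theorem cexp_eq (ψ : ℝ) : Complex.exp ((ψ : ℂ) * Complex.I) =
    ((Real.cos ψ : ℝ) : ℂ) + ((Real.sin ψ : ℝ) : ℂ) * Complex.I := by
  rw [Complex.exp_mul_I, Complex.ofReal_cos, Complex.ofReal_sin]

theorem norm_dir_sq (v : T) : ‖S.dir v‖ ^ 2 = Real.exp (v.2.1 - S.u (zz (bp v))) ^ 2 := by
  rw [norm_dir]

theorem acc_dir (hU : Differentiable ℝ fun p => S.u (zz p)) (v : T) :
    S.acc (base v) (S.dir v) =
      ((Real.exp (v.2.1 - S.u (zz (bp v))) ^ 2 : ℝ) : ℂ) *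
      (-2 * (((Ux (fun p => S.u (zz p)) (bp v) * Real.cos v.2.2 +
        (Us (fun p => S.u (zz p)) (bp v) - 1) * Real.exp (-v.2.1) * Real.sin v.2.2 : ℝ)) : ℂ) *
        Complex.exp ((v.2.2 : ℂ) * Complex.I) +
        ((Ux (fun p => S.u (zz p)) (bp v) : ℝ) : ℂ) +
        (((Us (fun p => S.u (zz p)) (bp v) - 1) * Real.exp (-v.2.1) : ℝ) : ℂ) * Complex.I) := by
  have hz : 0 < ((base v : ℍ) : ℂ).im := UpperHalfPlane.im_pos _
  have hcc : cc ((base v : ℍ) : ℂ) = bp v := by rw [base_eq, cc_zz]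
  have him : ((base v : ℍ) : ℂ).im = Real.exp v.2.1 := rfl
  unfold acc
  rw [S.fderiv_σ hU hz, S.fderiv_σ hU hz, S.fderiv_σ hU hz, norm_dir_sq, dir_re, dir_im, hcc, him,
    dir_eq, Real.exp_neg]
  simp only [Complex.one_re, Complex.one_im, Complex.I_re, Complex.I_im, zero_div, mul_zero,
    add_zero, mul_one, zero_add]
  push_cast
  ring

/-- (b1) geodesic equation along the flow -/
theorem hasDerivAt_dir (P : Pre) (hP : P.U = fun p => S.u (zz p)) (v : T) (s : ℝ) :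
    HasDerivAt (fun s => S.dir (P.Φ s v)) (S.acc (base (P.Φ s v)) (S.dir (P.Φ s v))) s := by
  have hU : Differentiable ℝ fun p => S.u (zz p) := by
    rw [← hP]; exact P.U_smooth.differentiable (by simp)
  have h := P.Φ_deriv v s
  rw [hP] at h
  have h1 : HasDerivAt (fun s => (P.Φ s v).1) _ s := h.fst
  have h2 : HasDerivAt (fun s => (P.Φ s v).2.1) _ s := h.snd.fst
  have h3 : HasDerivAt (fun s => (P.Φ s v).2.2) _ s := h.snd.snd
  have h4 := HasFDerivAt.comp_hasDerivAt (l := fun p => S.u (zz p))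
    (f := fun s => ((P.Φ s v).1, (P.Φ s v).2.1)) s
    (hU (bp (P.Φ s v))).hasFDerivAt (h1.prodMk h2)
  rw [fderiv_pair] at h4
  have h5 : HasDerivAt (fun s => Real.exp ((P.Φ s v).2.1 - S.u (zz (bp (P.Φ s v)))))
    (Real.exp ((P.Φ s v).2.1 - S.u (zz (bp (P.Φ s v)))) * _) s := (h2.sub h4).exp
  have h6 : HasDerivAt (fun s => Complex.exp (((P.Φ s v).2.2 : ℂ) * Complex.I)) _ s :=
    ((h3.ofReal_comp).mul_const Complex.I).cexp
  have h7 := h5.ofReal_comp.mul h6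
  have e : (fun s => S.dir (P.Φ s v)) = fun s =>
      ((Real.exp ((P.Φ s v).2.1 - S.u (zz (bp (P.Φ s v)))) : ℝ) : ℂ) *
        Complex.exp (((P.Φ s v).2.2 : ℂ) * Complex.I) := by
    ext s
    exact S.dir_eq _
  rw [e]
  refine h7.congr_deriv ?_
  rw [S.acc_dir hU]
  set w := P.Φ s v with hw
  set p := Ux (fun p => S.u (zz p)) (bp w)
  set q := Us (fun p => S.u (zz p)) (bp w)
  unfold fieldX
  simp only
  have e1 : Real.exp (-S.u (zz (bp w))) =
      Real.exp (w.2.1 - S.u (zz (bp w))) * Real.exp (-w.2.1) := by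
    rw [← Real.exp_add]; congr 1; ring
  have e2 : Real.exp w.2.1 * Real.exp (-w.2.1) = 1 := by
    rw [← Real.exp_add]; simp
  rw [e1, cexp_eq]
  set A := Real.exp (w.2.1 - S.u (zz (bp w)))
  set y := Real.exp w.2.1
  set b := Real.exp (-w.2.1)
  set c := Real.cos w.2.2 with hc
  set d := Real.sin w.2.2 with hd
  have e3 : c ^ 2 + d ^ 2 = 1 := by rw [hc, hd]; exact Real.cos_sq_add_sin_sq _
  have f2 : (y : ℂ) * b = 1 := by exact_mod_cast e2
  have f3 : (c : ℂ) ^ 2 + d ^ 2 = 1 := by exact_mod_cast e3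
  have f4 : Complex.I ^ 2 = -1 := Complex.I_sq
  push_cast
  linear_combination (-(A : ℂ) ^ 2 * (c + d * Complex.I) * p * d * Complex.I) * f2 +
    ((A : ℂ) ^ 2 * (p + (q - 1) * b * Complex.I)) * f3 +
    ((A : ℂ) ^ 2 * (-p * d ^ 2 + (q - 1) * b * c * d)) * f4

/-- the half plane as an open set -/
theorem isOpen_hp : IsOpen {z : ℂ | 0 < z.im} := isOpen_lt continuous_const Complex.continuous_im

theorem contDiffOn_σ : ContDiffOn ℝ (⊤ : ℕ∞) S.σ {z : ℂ | 0 < z.im} := by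
  unfold σ
  refine S.smooth.sub ?_
  refine ContDiffOn.log ?_ (fun z hz => (ne_of_gt hz))
  exact Complex.imCLM.contDiff.contDiffOn

/-- the first order system of the geodesic equation -/
noncomputable def vf (p : ℂ × ℂ) : ℂ × ℂ := (p.2, S.acc p.1 p.2)

theorem isOpen_W : IsOpen {p : ℂ × ℂ | 0 < p.1.im} :=
  isOpen_lt continuous_const (Complex.continuous_im.comp continuous_fst)

theorem contDiffOn_dσ : ContDiffOn ℝ 1 (fun p : ℂ × ℂ => fderiv ℝ S.σ p.1)
    {p : ℂ × ℂ | 0 < p.1.im} := by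
  have h : ContDiffOn ℝ 1 (fderiv ℝ S.σ) {z : ℂ | 0 < z.im} :=
    S.contDiffOn_σ.fderiv_of_isOpen isOpen_hp (WithTop.coe_le_coe.2 le_top)
  exact h.comp contDiff_fst.contDiffOn (fun p hp => hp)

theorem contDiffOn_vf : ContDiffOn ℝ 1 S.vf {p : ℂ × ℂ | 0 < p.1.im} := by
  have h := S.contDiffOn_dσ
  have h2 : ContDiffOn ℝ 1 (fun p : ℂ × ℂ => p.2) {p : ℂ × ℂ | 0 < p.1.im} :=
    contDiff_snd.contDiffOn
  have ha : ContDiffOn ℝ 1 (fun p : ℂ × ℂ => fderiv ℝ S.σ p.1 p.2) {p : ℂ × ℂ | 0 < p.1.im} :=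
    h.clm_apply h2
  have hb (w : ℂ) : ContDiffOn ℝ 1 (fun p : ℂ × ℂ => fderiv ℝ S.σ p.1 w)
      {p : ℂ × ℂ | 0 < p.1.im} := h.clm_apply contDiffOn_const
  have hc {f : ℂ × ℂ → ℝ} (hf : ContDiffOn ℝ 1 f {p : ℂ × ℂ | 0 < p.1.im}) :
      ContDiffOn ℝ 1 (fun p => ((f p : ℝ) : ℂ)) {p : ℂ × ℂ | 0 < p.1.im} :=
    Complex.ofRealCLM.contDiff.comp_contDiffOn hf
  have hn : ContDiffOn ℝ 1 (fun p : ℂ × ℂ => ‖p.2‖ ^ 2) {p : ℂ × ℂ | 0 < p.1.im} :=
    (contDiff_snd.norm_sq ℝ).contDiffOn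
  unfold vf acc
  refine h2.prodMk ?_
  exact ((hc (contDiffOn_const.mul ha)).neg.mul h2).add
    ((hc hn).mul ((hc (hb 1)).add ((hc (hb Complex.I)).mul contDiffOn_const)))

theorem exists_lip {f g : ℝ → ℂ × ℂ} {a b : ℝ} (hf : ContinuousOn f (Icc a b))
    (hg : ContinuousOn g (Icc a b)) (hf0 : ∀ t ∈ Icc a b, 0 < (f t).1.im)
    (hg0 : ∀ t ∈ Icc a b, 0 < (g t).1.im) :
    ∃ (D : Set (ℂ × ℂ)) (K : NNReal), LipschitzOnWith K S.vf D ∧
      (∀ t ∈ Icc a b, f t ∈ D) ∧ ∀ t ∈ Icc a b, g t ∈ D := by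
  have hK : IsCompact (f '' Icc a b ∪ g '' Icc a b) :=
    (isCompact_Icc.image_of_continuousOn hf).union (isCompact_Icc.image_of_continuousOn hg)
  have hK0 : ∀ p ∈ f '' Icc a b ∪ g '' Icc a b, 0 < p.1.im := by
    rintro p (⟨t, ht, rfl⟩ | ⟨t, ht, rfl⟩)
    · exact hf0 t ht
    · exact hg0 t ht
  obtain ⟨C, hC⟩ := hK.exists_bound_of_continuousOn (f := fun p : ℂ × ℂ => (p.1.im)⁻¹)
    (ContinuousOn.inv₀ (by fun_prop) (fun p hp => (hK0 p hp).ne'))
  obtain ⟨R, hR⟩ := hK.isBounded.subset_closedBall 0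
  set δ : ℝ := (max C 1)⁻¹ with hδ
  have hδ0 : 0 < δ := by positivity
  set D : Set (ℂ × ℂ) := {p | δ ≤ p.1.im} ∩ Metric.closedBall 0 R with hD
  have hDW : D ⊆ {p : ℂ × ℂ | 0 < p.1.im} := fun p hp => lt_of_lt_of_le hδ0 hp.1
  have hDc : IsCompact D := by
    refine IsCompact.inter_left (isCompact_closedBall 0 R) ?_
    exact isClosed_le continuous_const (Complex.continuous_im.comp continuous_fst)
  have hDconv : Convex ℝ D := by
    refine Convex.inter ?_ (convex_closedBall 0 R)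
    exact convex_halfSpace_ge (f := fun p : ℂ × ℂ => p.1.im)
      ⟨fun x y => by simp, fun c x => by simp⟩ δ
  have hcf : ContinuousOn (fderiv ℝ S.vf) D :=
    (S.contDiffOn_vf.continuousOn_fderiv_of_isOpen isOpen_W le_rfl).mono hDW
  obtain ⟨K, hKb⟩ := hDc.exists_bound_of_continuousOn hcf
  have hmem : ∀ p ∈ f '' Icc a b ∪ g '' Icc a b, p ∈ D := by
    intro p hp
    refine ⟨?_, hR hp⟩
    have h1 := hC p hp
    have h2 := hK0 p hp
    change δ ≤ p.1.im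
    rw [Real.norm_eq_abs, abs_of_pos (inv_pos.2 h2)] at h1
    rw [hδ, inv_le_comm₀ (by positivity) h2]
    exact h1.trans (le_max_left _ _)
  refine ⟨D, K.toNNReal, ?_, fun t ht => hmem _ (Or.inl ⟨t, ht, rfl⟩),
    fun t ht => hmem _ (Or.inr ⟨t, ht, rfl⟩)⟩
  refine hDconv.lipschitzOnWith_of_nnnorm_fderiv_le (𝕜 := ℝ) (fun p hp => ?_) (fun p hp => ?_)
  · exact ((S.contDiffOn_vf.differentiableOn one_ne_zero) p (hDW hp)).differentiableAt
      (isOpen_W.mem_nhds (hDW hp))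
  · rw [← NNReal.coe_le_coe, coe_nnnorm]
    exact (hKb p hp).trans (Real.le_coe_toNNReal K)

/-- uniqueness of solutions of the geodesic equation on intervals -/
theorem ode_unique {I : Set ℝ} (hI : I.OrdConnected) {f g : ℝ → ℂ × ℂ}
    (hf : ∀ t ∈ I, HasDerivWithinAt f (S.vf (f t)) I t)
    (hg : ∀ t ∈ I, HasDerivWithinAt g (S.vf (g t)) I t)
    (hf0 : ∀ t ∈ I, 0 < (f t).1.im) (hg0 : ∀ t ∈ I, 0 < (g t).1.im)
    {s₀ : ℝ} (hs₀ : s₀ ∈ I) (h0 : f s₀ = g s₀) : ∀ s ∈ I, f s = g s := by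
  have hfc : ContinuousOn f I := fun t ht => (hf t ht).continuousWithinAt
  have hgc : ContinuousOn g I := fun t ht => (hg t ht).continuousWithinAt
  intro s hs
  rcases le_total s₀ s with hle | hle
  · have hsub : Icc s₀ s ⊆ I := hI.out hs₀ hs
    obtain ⟨D, K, hL, hfD, hgD⟩ := S.exists_lip (hfc.mono hsub) (hgc.mono hsub)
      (fun t ht => hf0 t (hsub ht)) (fun t ht => hg0 t (hsub ht))
    have hder : ∀ {h : ℝ → ℂ × ℂ}, (∀ t ∈ I, HasDerivWithinAt h (S.vf (h t)) I t) →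
        ∀ t ∈ Ico s₀ s, HasDerivWithinAt h (S.vf (h t)) (Ici t) t := by
      intro h hh t ht
      refine ((hh t (hsub (Ico_subset_Icc_self ht))).mono_of_mem_nhdsWithin ?_)
      have : Icc t s ⊆ I := (Icc_subset_Icc_left ht.1).trans hsub
      exact Filter.mem_of_superset (Icc_mem_nhdsGE ht.2) this
    exact ODE_solution_unique_of_mem_Icc_right (v := fun _ => S.vf) (s := fun _ => D) (K := K)
      (fun _ _ => hL) (hfc.mono hsub) (hder hf) (fun t ht => hfD t (Ico_subset_Icc_self ht))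
      (hgc.mono hsub) (hder hg) (fun t ht => hgD t (Ico_subset_Icc_self ht)) h0
      (right_mem_Icc.2 hle)
  · have hsub : Icc s s₀ ⊆ I := hI.out hs hs₀
    obtain ⟨D, K, hL, hfD, hgD⟩ := S.exists_lip (hfc.mono hsub) (hgc.mono hsub)
      (fun t ht => hf0 t (hsub ht)) (fun t ht => hg0 t (hsub ht))
    have hder : ∀ {h : ℝ → ℂ × ℂ}, (∀ t ∈ I, HasDerivWithinAt h (S.vf (h t)) I t) →
        ∀ t ∈ Ioc s s₀, HasDerivWithinAt h (S.vf (h t)) (Iic t) t := by
      intro h hh t ht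
      refine ((hh t (hsub (Ioc_subset_Icc_self ht))).mono_of_mem_nhdsWithin ?_)
      have : Icc s t ⊆ I := (Icc_subset_Icc_right ht.2).trans hsub
      exact Filter.mem_of_superset (Icc_mem_nhdsLE ht.1) this
    exact ODE_solution_unique_of_mem_Icc_left (v := fun _ => S.vf) (s := fun _ => D) (K := K)
      (fun _ _ => hL) (hfc.mono hsub) (hder hf) (fun t ht => hfD t (Ioc_subset_Icc_self ht))
      (hgc.mono hsub) (hder hg) (fun t ht => hgD t (Ioc_subset_Icc_self ht)) h0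
      (left_mem_Icc.2 hle)

/-- (b2) every unit speed geodesic arc is a flow line -/
theorem geodesic_eq_flow (P : Pre) (hP : P.U = fun p => S.u (zz p)) {I : Set ℝ}
    (hI : I.OrdConnected) {c : ℝ → ℍ} {c' c'' : ℝ → ℂ}
    (hc : ∀ s ∈ I, HasDerivWithinAt (fun s => (c s : ℂ)) (c' s) I s ∧
      HasDerivWithinAt c' (c'' s) I s ∧ Real.exp (S.σ (c s)) * ‖c' s‖ = 1 ∧
      c'' s = S.acc (c s) (c' s)) {s₀ : ℝ} (hs₀ : s₀ ∈ I) {v : T} (hv : base v = c s₀)
    (hv' : S.dir v = c' s₀) : ∀ s ∈ I, c s = base (P.Φ (s - s₀) v) ∧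
      c' s = S.dir (P.Φ (s - s₀) v) := by
  have hf : ∀ t ∈ I, HasDerivWithinAt (fun s => ((c s : ℂ), c' s))
      (S.vf ((c t : ℂ), c' t)) I t := by
    intro t ht
    obtain ⟨h1, h2, -, h4⟩ := hc t ht
    have := h1.prodMk h2
    rw [h4] at this
    exact this
  have hg : ∀ t ∈ I, HasDerivWithinAt
      (fun s => (((base (P.Φ (s - s₀) v) : ℍ) : ℂ), S.dir (P.Φ (s - s₀) v)))
      (S.vf (((base (P.Φ (t - s₀) v) : ℍ) : ℂ), S.dir (P.Φ (t - s₀) v))) I t := by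
    intro t _
    have h1 := (S.hasDerivAt_base P hP v (t - s₀)).comp_sub_const t s₀
    have h2 := (S.hasDerivAt_dir P hP v (t - s₀)).comp_sub_const t s₀
    exact (h1.prodMk h2).hasDerivWithinAt
  have key := S.ode_unique hI hf hg (fun t _ => UpperHalfPlane.im_pos _)
    (fun t _ => UpperHalfPlane.im_pos _) hs₀ (by simp [P.Φ_zero, hv, hv'])
  intro s hs
  have h := key s hs
  rw [Prod.mk.injEq] at h
  refine ⟨?_, h.2⟩
  exact UpperHalfPlane.ext h.1

end Surface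

end H65.Flat
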