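import Pool.Agent.H66.Flat.BridgeA
import Pool.Agent.H88.Flat.BridgeB

/-! # Bridge between the basic definitions and the phase space flow

`H65.Flat.Surface.smooth_zz`, `curv_eq`, `exists_compact` (helper66) and `dir`, `hasDerivAt_base`,
`hasDerivAt_dir`, `geodesic_eq_flow` (helper88).
-/
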