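import Pool.Agent.H65.Flat.Tubes

/-! # Power decay of the tube functional of a `Geo` -/

namespace H65.Flat

open MeasureTheory Set Filter
open scoped ENNReal Topology

variable (G : Geo)

theorem Geo.decay : ∃ C η n₀ : ℝ, 0 < η ∧ 0 ≤ C ∧ ∀ n : ℕ, n₀ ≤ n →
    ∫⁻ v in G.D, NearFlat.width G.Φ rot G.K n v ^ 20 ∂G.μ ≤
      ENNReal.ofReal (C * (n : ℝ) ^ (-η)) := by
  obtain ⟨D, c, hD, hc, hole⟩ := G.hole
  have hfin : IsFiniteMeasure (G.μ.restrict G.D) :=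
    ⟨by rw [Measure.restrict_apply MeasurableSet.univ, univ_inter]; exact G.D_fin⟩
  exact NearFlat.width_decay G.preGeo G.K_psi_cont G.Dk (G.μ.restrict G.D)
    (by rintro _ ⟨τ, h1, rfl⟩ t v; exact G.Λ_flow τ h1 t v)
    (by rintro _ ⟨τ, h1, rfl⟩ a v; exact G.Λ_rot τ h1 a v)
    (by rintro _ ⟨τ, h1, rfl⟩ v; exact G.Λ_K τ h1 v)
    (fun t => (G.flow_cont' t).measurable) (fun a => (rot_cont a).measurable)
    (fun t F hF hi => G.M_flow t F hF (fun τ hτ v => hi τ ⟨τ, hτ, rfl⟩ v))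
    (fun a F hF hi => G.M_rot a F hF (fun τ hτ v => hi τ ⟨τ, hτ, rfl⟩ v))
    hD hc hole

/-- the same in terms of the real width `G.w` -/
theorem Geo.decay_w : ∃ C η n₀ : ℝ, 0 < η ∧ 0 ≤ C ∧ ∀ n : ℕ, n₀ ≤ n →
    ∫⁻ v in G.D, ENNReal.ofReal (G.w n v ^ 20) ∂G.μ ≤
      ENNReal.ofReal (C * (n : ℝ) ^ (-η)) := by
  obtain ⟨C, η, n₀, hη, hC, h⟩ := G.decay
  obtain ⟨n1, D, c, -, -, -, -, -, -, hb⟩ := G.hole_bound
  refine ⟨C, η, max n₀ n1, hη, hC, fun n hn => ?_⟩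
  have h1 := h n ((le_max_left _ _).trans hn)
  have e : ∀ u, NearFlat.width G.Φ rot G.K n u ^ 20 = ENNReal.ofReal (G.w n u ^ 20) := fun u => by
    rw [Geo.width_eq (hb n ((le_max_right _ _).trans hn)), ENNReal.ofReal_pow (G.w_nonneg n u)]
  simpa only [e] using h1

end H65.Flat
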