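import Pool.Agent.H72.Flat.Tube
import Pool.Agent.H72.Flat.Decay

/-! The width of the almost flat tube: attained supremum, monotonicity, semicontinuity,
upper bound, and the decay theorem for a geodesic flow. -/

namespace NearFlat

open Set MeasureTheory Topology Filter
open scoped ENNReal

variable {T : Type*} {Φ rot : ℝ → T → T} {K : T → ℝ} {G G1 : T → ℝ → ℝ → ℝ}

/-- width of the almost flat tube around the segment of half-length `n` -/
noncomputable def width (Φ rot : ℝ → T → T) (K : T → ℝ) (n : ℝ) (u : T) : ℝ≥0∞ :=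
  ⨆ (r : ℝ) (_ : Tube Φ rot K u n r), ENNReal.ofReal r

theorem lt_width {n : ℝ} {u : T} {a : ℝ≥0∞} :
    a < width Φ rot K n u ↔ ∃ r, Tube Φ rot K u n r ∧ a < ENNReal.ofReal r := by
  simp only [width, lt_iSup_iff, exists_prop]

/-- the supremum is attained -/
theorem le_width_iff {n r : ℝ} (hr : 0 < r) {u : T} :
    ENNReal.ofReal r ≤ width Φ rot K n u ↔ Tube Φ rot K u n r := by
  constructor
  · intro h t y ht hy
    have h1 : ENNReal.ofReal |y| < width Φ rot K n u :=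
      lt_of_lt_of_le ((ENNReal.ofReal_lt_ofReal_iff hr).2 hy) h
    obtain ⟨r', h2, h3⟩ := lt_width.1 h1
    exact h2 t y ht ((ENNReal.ofReal_lt_ofReal_iff_of_nonneg (abs_nonneg y)).1 h3)
  · intro h
    exact le_iSup₂_of_le r h le_rfl

theorem Tube.le_width {n r : ℝ} {u : T} (h : Tube Φ rot K u n r) :
    ENNReal.ofReal r ≤ width Φ rot K n u := le_iSup₂_of_le r h le_rfl

theorem width_anti {n n' : ℝ} (hn : 0 < n) (h : n ≤ n') (u : T) :
    width Φ rot K n' u ≤ width Φ rot K n u :=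
  iSup₂_le fun _ hr => (hr.mono_n hn h).le_width

/-- lower semicontinuity in the vector -/
theorem width_lsc [TopologicalSpace T]
    (hc : Continuous fun p : T × ℝ × ℝ => K (psi Φ rot p.1 p.2.1 p.2.2 0)) (n : ℝ) :
    LowerSemicontinuous (width Φ rot K n) := by
  intro u a ha
  obtain ⟨r, hr, har⟩ := lt_width.1 ha
  have hat : a ≠ ⊤ := (lt_of_lt_of_le har le_top).ne
  have h1 : a.toReal < r := (ENNReal.lt_ofReal_iff_toReal_lt hat).1 har
  set r' : ℝ := (a.toReal + r) / 2 with hr'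
  have h2 : r' < r := by rw [hr']; linarith
  have h3 : a < ENNReal.ofReal r' := (ENNReal.lt_ofReal_iff_toReal_lt hat).2 (by rw [hr']; linarith)
  have hK : IsCompact (Icc (-n) n ×ˢ Icc (-r') r') := isCompact_Icc.prod isCompact_Icc
  have hP : ∀ p ∈ Icc (-n) n ×ˢ Icc (-r') r', ∀ᶠ z : T × (ℝ × ℝ) in 𝓝 (u, p),
      -K (psi Φ rot z.1 z.2.1 z.2.2 0) < (n ^ 3)⁻¹ := by
    intro p hp
    have e : -K (psi Φ rot u p.1 p.2 0) < (n ^ 3)⁻¹ :=
      hr p.1 p.2 (abs_le.2 hp.1) (lt_of_le_of_lt (abs_le.2 hp.2) h2)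
    exact (hc.neg.continuousAt (x := (u, p))).eventually_lt continuousAt_const e
  filter_upwards [hK.eventually_forall_of_forall_eventually
    (P := fun v q => -K (psi Φ rot v q.1 q.2 0) < (n ^ 3)⁻¹) hP] with u' hu'
  exact lt_width.2 ⟨r', fun t y ht hy => hu' (t, y) ⟨abs_le.1 ht, abs_le.1 hy.le⟩, h3⟩

theorem width_measurable [TopologicalSpace T] [MeasurableSpace T] [BorelSpace T]
    (hc : Continuous fun p : T × ℝ × ℝ => K (psi Φ rot p.1 p.2.1 p.2.2 0)) (n : ℝ) :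
    Measurable (width Φ rot K n) := (width_lsc hc n).measurable

/-- charts commute with deck maps -/
theorem psi_deck {τ : T → T} (hΦ : ∀ t v, Φ t (τ v) = τ (Φ t v))
    (hrot : ∀ a v, rot a (τ v) = τ (rot a v)) (u : T) (t y φ : ℝ) :
    psi Φ rot (τ u) t y φ = τ (psi Φ rot u t y φ) := by
  unfold psi; rw [hΦ, hrot, hΦ, hrot]

theorem tube_deck {τ : T → T} (hΦ : ∀ t v, Φ t (τ v) = τ (Φ t v))
    (hrot : ∀ a v, rot a (τ v) = τ (rot a v)) (hK : ∀ v, K (τ v) = K v) (u : T) (n r : ℝ) :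
    Tube Φ rot K (τ u) n r ↔ Tube Φ rot K u n r := by
  unfold Tube
  simp only [psi_deck hΦ hrot, hK]

theorem width_deck {τ : T → T} (hΦ : ∀ t v, Φ t (τ v) = τ (Φ t v))
    (hrot : ∀ a v, rot a (τ v) = τ (rot a v)) (hK : ∀ v, K (τ v) = K v) (n : ℝ) (u : T) :
    width Φ rot K n (τ u) = width Φ rot K n u := by
  unfold width
  simp only [tube_deck hΦ hrot hK]

/-- tubes of the translates along the flow -/
theorem Tube.flow (hadd : ∀ s t v, Φ s (Φ t v) = Φ (s + t) v) {u : T} {n n' r s : ℝ}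
    (hn : 0 < n) (hs : |s| + n ≤ n') (h : Tube Φ rot K u n' r) : Tube Φ rot K (Φ s u) n r := by
  intro t y ht hy
  have e : psi Φ rot (Φ s u) t y 0 = psi Φ rot u (t + s) y 0 := by unfold psi; rw [hadd]
  rw [e]
  have hs0 := abs_nonneg s
  refine lt_of_lt_of_le (h (t + s) y ?_ hy) ?_
  · exact (abs_add_le t s).trans (by linarith)
  · exact inv_anti₀ (by positivity) (pow_le_pow_left₀ hn.le (by linarith) 3)

theorem width_flow (hadd : ∀ s t v, Φ s (Φ t v) = Φ (s + t) v) {u : T} {n n' s : ℝ}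
    (hn : 0 < n) (hs : |s| + n ≤ n') : width Φ rot K n' u ≤ width Φ rot K n (Φ s u) :=
  iSup₂_le fun _ hr => (hr.flow hadd hn hs).le_width

/-- a dense set of points of negative curvature bounds the width -/
theorem Tube.le_of_hole {u : T} {n r D c : ℝ} (hc : 0 < c) (hn : D ≤ n) (hn1 : 1 ≤ n)
    (hnc : c⁻¹ ≤ n) (hole : ∃ t y, |t| ≤ D ∧ |y| ≤ D ∧ c ≤ -K (psi Φ rot u t y 0))
    (h : Tube Φ rot K u n r) : r ≤ D := by
  obtain ⟨t, y, ht, hy, hk⟩ := hole
  by_contra hr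
  push Not at hr
  have h1 := h t y (ht.trans hn) (lt_of_le_of_lt hy hr)
  have h2 : n ≤ n ^ 3 := le_self_pow₀ hn1 (by norm_num)
  have h3 : (n ^ 3)⁻¹ ≤ c := by
    rw [inv_le_comm₀ (by positivity) hc]
    linarith
  linarith

theorem width_le_of_hole {u : T} {n D c : ℝ} (hc : 0 < c) (hn : D ≤ n) (hn1 : 1 ≤ n)
    (hnc : c⁻¹ ≤ n) (hole : ∃ t y, |t| ≤ D ∧ |y| ≤ D ∧ c ≤ -K (psi Φ rot u t y 0)) :
    width Φ rot K n u ≤ ENNReal.ofReal D :=
  iSup₂_le fun _ hr => ENNReal.ofReal_le_ofReal (hr.le_of_hole hc hn hn1 hnc hole)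

/-- holes are uniformly dense when the deck group is cocompact -/
theorem exists_hole [TopologicalSpace T]
    (hc : Continuous fun p : T × ℝ × ℝ => K (psi Φ rot p.1 p.2.1 p.2.2 0))
    {Dk : Set (T → T)} {C : Set T} (hC : IsCompact C) (hcov : ∀ u, ∃ τ ∈ Dk, τ u ∈ C)
    (dΦ : ∀ τ ∈ Dk, ∀ t v, Φ t (τ v) = τ (Φ t v)) (drot : ∀ τ ∈ Dk, ∀ a v, rot a (τ v) = τ (rot a v))
    (dK : ∀ τ ∈ Dk, ∀ v, K (τ v) = K v)
    (hneg : ∀ u, ∃ t y, K (psi Φ rot u t y 0) < 0) :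
    ∃ D c : ℝ, 0 < D ∧ 0 < c ∧ ∀ u, ∃ t y, |t| ≤ D ∧ |y| ≤ D ∧ c ≤ -K (psi Φ rot u t y 0) := by
  have key : ∃ k : ℕ, ∀ u ∈ C, ∃ t y : ℝ, |t| < k + 1 ∧ |y| < k + 1 ∧
      ((k : ℝ) + 1)⁻¹ < -K (psi Φ rot u t y 0) := by
    let U : ℕ → Set T := fun k => {u | ∃ t y : ℝ, |t| < k + 1 ∧ |y| < k + 1 ∧
      ((k : ℝ) + 1)⁻¹ < -K (psi Φ rot u t y 0)}
    have hUo : ∀ k, IsOpen (U k) := by
      intro k
      have : U k = ⋃ (t : ℝ) (y : ℝ) (_ : |t| < k + 1 ∧ |y| < k + 1),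
          {u | ((k : ℝ) + 1)⁻¹ < -K (psi Φ rot u t y 0)} := by
        ext u
        simp only [U, mem_ofPred_eq, mem_iUnion, exists_prop, and_assoc]
      rw [this]
      refine isOpen_iUnion fun t => isOpen_iUnion fun y => isOpen_iUnion fun _ => ?_
      have hcu : Continuous fun u => -K (psi Φ rot u t y 0) :=
        (hc.comp (Continuous.prodMk continuous_id (continuous_const (y := (t, y))))).neg
      exact isOpen_lt continuous_const hcu
    have hUm : Monotone U := by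
      intro k l hkl u hu
      obtain ⟨t, y, h1, h2, h3⟩ := hu
      have hkl' : (k : ℝ) ≤ l := by exact_mod_cast hkl
      refine ⟨t, y, by linarith, by linarith, lt_of_le_of_lt ?_ h3⟩
      exact inv_anti₀ (by positivity) (by linarith)
    have hcovU : C ⊆ ⋃ k, U k := by
      intro u _
      obtain ⟨t, y, hty⟩ := hneg u
      obtain ⟨k1, hk1⟩ := exists_nat_gt |t|
      obtain ⟨k2, hk2⟩ := exists_nat_gt |y|
      obtain ⟨k3, hk3⟩ := exists_nat_gt (-K (psi Φ rot u t y 0))⁻¹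
      refine mem_iUnion.2 ⟨k1 + k2 + k3, t, y, ?_, ?_, ?_⟩
      · push_cast
        have : (0 : ℝ) ≤ k2 := by positivity
        have : (0 : ℝ) ≤ k3 := by positivity
        linarith
      · push_cast
        have : (0 : ℝ) ≤ k1 := by positivity
        have : (0 : ℝ) ≤ k3 := by positivity
        linarith
      · push_cast
        have h1 : (0 : ℝ) ≤ k1 := by positivity
        have h2 : (0 : ℝ) ≤ k2 := by positivity
        have h0 : 0 < -K (psi Φ rot u t y 0) := by linarith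
        rw [inv_lt_comm₀ (by positivity) h0]
        linarith
    obtain ⟨s, hs⟩ := hC.elim_finite_subcover U hUo hcovU
    refine ⟨s.sup id, fun u hu => ?_⟩
    obtain ⟨k, hk, huk⟩ := mem_iUnion₂.1 (hs hu)
    exact hUm (Finset.le_sup (f := id) hk) huk
  obtain ⟨k, hk⟩ := key
  refine ⟨k + 1, ((k : ℝ) + 1)⁻¹, by positivity, by positivity, fun u => ?_⟩
  obtain ⟨τ, hτ, hτu⟩ := hcov u
  obtain ⟨t, y, h1, h2, h3⟩ := hk _ hτu
  rw [psi_deck (dΦ τ hτ) (drot τ hτ), dK τ hτ] at h3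
  exact ⟨t, y, h1.le, h2.le, h3.le⟩

end NearFlat
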